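import Pool.Agent.H526R2.LS.Apsp

set_option autoImplicit false
set_option linter.unusedSectionVars false

/-! Locally symmetric networks, counting only the gates which depend on a given part of the input
(and not on another part): the other gates are free. -/

namespace Pool.Agent.H587R4.OL

open Finset Pool.Agent.H526R2.LS

section dep

variable {I K O Gt : Type*}

/-- The gate `g` depends on the inputs in `J`: there is a directed path (possibly of length zero)
from a gate which reads an input in `J` to `g`. -/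
def Dep (N : Net I K O Gt) (J : I → Prop) (g : Gt) : Prop :=
  ∃ h i, N.inp h = some i ∧ J i ∧ Relation.ReflTransGen (fun a b => 0 < N.w a b) h g

theorem Dep.wire {N : Net I K O Gt} {J : I → Prop} {h g : Gt} (hw : 0 < N.w h g)
    (hd : Dep N J h) : Dep N J g := by
  obtain ⟨k, i, h1, h2, h3⟩ := hd
  exact ⟨k, i, h1, h2, h3.tail hw⟩

theorem Dep.read {N : Net I K O Gt} {J : I → Prop} {g : Gt} {i : I} (h : N.inp g = some i)
    (hi : J i) : Dep N J g :=
  ⟨g, i, h, hi, Relation.ReflTransGen.refl⟩

theorem Dep.aut {N : Net I K O Gt} {J : I → Prop} {p : Equiv.Perm I} {q : Equiv.Perm O}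
    {φ : Equiv.Perm Gt} (hφ : N.IsAut p q φ) (hJ : ∀ i, J i → J (p i)) {g : Gt}
    (hd : Dep N J g) : Dep N J (φ g) := by
  obtain ⟨k, i, h1, h2, h3⟩ := hd
  refine ⟨φ k, p i, ?_, hJ i h2, ?_⟩
  · rw [hφ.inp, h1]; rfl
  · clear h1
    induction h3 with
    | refl => exact Relation.ReflTransGen.refl
    | tail _ hbc ih =>
      refine Relation.ReflTransGen.tail ih ?_
      rw [hφ.w]
      exact hbc

theorem Dep.aut_iff {N : Net I K O Gt} {J : I → Prop} {p : Equiv.Perm I} {q : Equiv.Perm O}
    {φ : Equiv.Perm Gt} (hφ : N.IsAut p q φ) (hJ : ∀ i, J (p i) ↔ J i) {g : Gt} :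
    Dep N J (φ g) ↔ Dep N J g := by
  constructor
  · intro h
    have h1 := Dep.aut hφ.inv (J := J) (fun i hi => by
      rw [← hJ, perm_apply_inv]; exact hi) h
    rwa [perm_inv_apply] at h1
  · exact Dep.aut hφ (fun i hi => (hJ i).2 hi)

variable [Fintype Gt]

theorem val_of_not_dep {N : Net I K O Gt} {J : I → Prop} {x x' : I → K}
    (hx : ∀ i, ¬ J i → x i = x' i) : ∀ g, ¬ Dep N J g → N.val x g = N.val x' g := by
  have key : ∀ n, ∀ g, N.rank g = n → ¬ Dep N J g → N.val x g = N.val x' g := by
    intro n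
    induction n using Nat.strong_induction_on with
    | _ n ih =>
      intro g hg hd
      cases hi : N.inp g with
      | some i =>
        rw [N.val_some _ hi, N.val_some _ hi]
        exact hx i (fun hJ => hd (Dep.read hi hJ))
      | none =>
        rw [N.val_none _ hi, N.val_none _ hi]
        congr 1
        apply Finset.sum_congr rfl
        intro h _
        by_cases hw : 0 < N.w h g
        · rw [ih (N.rank h) (by rw [← hg]; exact N.acyc _ _ hw) h rfl
            (fun hh => hd (Dep.wire hw hh))]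
        · have : N.w h g = 0 := by omega
          rw [this, zero_smul, zero_smul]
  intro g hd
  exact key _ g rfl hd

open Classical in
/-- **Main induction.** Gates which depend on `J` and not on `L` are fixed by `H0` or by `H1`; the
other gates are arbitrary.  Then a gate which does not depend on `L` and is fixed by `H1` has the
same value for all configurations. -/
theorem core2 {Γ : Type*} [Group Γ] (N : Net I K O Gt) (P : Γ →* Equiv.Perm I)
    (Q : Γ →* Equiv.Perm O) (H0 H1 : Subgroup Γ) [H1.Normal] (J L : I → Prop)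
    (hJ : ∀ γ i, J (P γ i) ↔ J i) {C D : Type*} (x : C → D → I → K)
    (hA : ∀ c c' d, ∃ γ ∈ H0, ∀ i, x c' d (P γ i) = x c d i)
    (hB1 : ∀ c d d', ∃ γ ∈ H1, ∃ c'', ∀ i, x c'' d' (P γ i) = x c d i)
    (hB2 : ∀ c c' d, ∃ γ ∈ H1, ∃ d'', ∀ i, x c' d'' (P γ i) = x c d i)
    (hC : ∀ c d d' i, ¬ J i → x c d i = x c d' i)
    (hI : ∀ i, (∀ γ ∈ H1, P γ i = i) → ∀ c d c' d', x c d i = x c' d' i)
    (hcov : ∀ g, Dep N J g → ¬ Dep N L g → N.Fixed P Q H0 g ∨ N.Fixed P Q H1 g) :
    ∀ g, ¬ Dep N L g → N.Fixed P Q H1 g → ∀ c d c' d',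
      N.val (x c d) g = N.val (x c' d') g := by
  have key : ∀ n, ∀ g, N.rank g = n → ¬ Dep N L g → N.Fixed P Q H1 g → ∀ c d c' d',
      N.val (x c d) g = N.val (x c' d') g := by
    intro n
    induction n using Nat.strong_induction_on with
    | _ n ih =>
      intro g hg hgL hfix c d c' d'
      cases hi : N.inp g with
      | some i =>
        rw [N.val_some _ hi, N.val_some _ hi]
        apply hI i
        intro γ hγ
        obtain ⟨φ, hφ, hφg⟩ := hfix γ hγ
        have h4 := hφ.inp g
        rw [hφg, hi, Option.map_some] at h4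
        exact (Option.some.inj h4).symm
      | none =>
        rw [N.val_none _ hi, N.val_none _ hi]
        congr 1
        let cls : Gt → Fin 3 := fun h => if N.Fixed P Q H1 h then 0 else
          if Dep N J h then 1 else 2
        have hinv : ∀ γ φ, N.IsAut (P γ) (Q γ) φ → ∀ h, cls (φ h) = cls h := by
          intro γ φ hφ h
          have e1 : N.Fixed P Q H1 (φ h) ↔ N.Fixed P Q H1 h := Net.Fixed.iff_aut hφ h
          have e2 : Dep N J (φ h) ↔ Dep N J h := Dep.aut_iff hφ (hJ γ)
          simp only [cls, e1, e2]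
        have c0 : ∀ h, cls h = 0 → N.Fixed P Q H1 h := by
          intro h hh
          by_contra hcon
          simp only [cls, if_neg hcon] at hh
          split_ifs at hh
          · exact absurd hh (by decide)
          · exact absurd hh (by decide)
        have c1 : ∀ h, cls h = 1 → ¬ N.Fixed P Q H1 h ∧ Dep N J h := by
          intro h hh
          simp only [cls] at hh
          by_cases a1 : N.Fixed P Q H1 h
          · rw [if_pos a1] at hh; exact absurd hh (by decide)
          · rw [if_neg a1] at hh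
            by_cases a2 : Dep N J h
            · exact ⟨a1, a2⟩
            · rw [if_neg a2] at hh; exact absurd hh (by decide)
        have c2 : ∀ h, cls h = 2 → ¬ Dep N J h := by
          intro h hh
          simp only [cls] at hh
          by_cases a1 : N.Fixed P Q H1 h
          · rw [if_pos a1] at hh; exact absurd hh (by decide)
          · rw [if_neg a1] at hh
            by_cases a2 : Dep N J h
            · rw [if_pos a2] at hh; exact absurd hh (by decide)
            · exact a2
        have move : ∀ γ ∈ H1, ∀ cc dd, (∀ i, x cc dd (P γ i) = x c d i) → ∀ u : Fin 3,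
            ∑ h with cls h = u, N.w h g • ({N.val (x c d) h} : Multiset K) =
              ∑ h with cls h = u, N.w h g • ({N.val (x cc dd) h} : Multiset K) := by
          intro γ hγ cc dd hcc u
          obtain ⟨φ, hφ, hφg⟩ := hfix γ hγ
          apply Finset.sum_equiv φ
          · intro h
            simp only [Finset.mem_filter, Finset.mem_univ, true_and]
            rw [hinv γ φ hφ h]
          · intro h _
            rw [hφ.val hcc h]
            congr 1
            have := hφ.w h g
            rw [hφg] at this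
            exact this.symm
        rw [← Finset.sum_fiberwise (s := (Finset.univ : Finset Gt)) (g := cls),
          ← Finset.sum_fiberwise (s := (Finset.univ : Finset Gt)) (g := cls)]
        apply Finset.sum_congr rfl
        intro u _
        have step : ∀ cc dd, (∀ h, cls h = u → 0 < N.w h g →
            N.val (x cc dd) h = N.val (x c' d') h) →
            ∑ h with cls h = u, N.w h g • ({N.val (x cc dd) h} : Multiset K) =
              ∑ h with cls h = u, N.w h g • ({N.val (x c' d') h} : Multiset K) := by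
          intro cc dd hcc
          apply Finset.sum_congr rfl
          intro h hh
          rw [Finset.mem_filter] at hh
          by_cases hw : 0 < N.w h g
          · rw [hcc h hh.2 hw]
          · have : N.w h g = 0 := by omega
            rw [this, zero_smul, zero_smul]
        have hu3 : ∀ u : Fin 3, u = 0 ∨ u = 1 ∨ u = 2 := by decide
        rcases hu3 u with rfl | rfl | rfl
        · apply step c d
          intro h hh hw
          exact ih (N.rank h) (by rw [← hg]; exact N.acyc _ _ hw) h rfl
            (fun hd => hgL (Dep.wire hw hd)) (c0 h hh) c d c' d'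
        · obtain ⟨γ, hγ, c'', hc''⟩ := hB1 c d d'
          rw [move γ hγ c'' d' hc'' 1]
          apply step c'' d'
          intro h hh hw
          obtain ⟨n1, n2⟩ := c1 h hh
          have h0 : N.Fixed P Q H0 h := (hcov h n2 (fun hd => hgL (Dep.wire hw hd))).resolve_right n1
          obtain ⟨δ, hδ, hδ2⟩ := hA c'' c' d'
          obtain ⟨ψ, hψ, hψh⟩ := h0 δ hδ
          have := hψ.val hδ2 h
          rw [hψh] at this
          exact this.symm
        · obtain ⟨γ, hγ, d'', hd''⟩ := hB2 c c' d
          rw [move γ hγ c' d'' hd'' 2]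
          apply step c' d''
          intro h hh _
          exact val_of_not_dep (hC c' d'' d') h (c2 h hh)
  intro g hgL hfix c d c' d'
  exact key _ g rfl hgL hfix c d c' d'

end dep

section supp

variable {I K O Gt : Type*} [Fintype Gt] {T : Type*} [Group T] {r : ℕ}

/-- support of the gates of an invariant set -/
theorem supp_sub {N : Net I K O Gt} {P : (Fin r → T) →* Equiv.Perm I}
    {Q : (Fin r → T) →* Equiv.Perm O} (h : N.SymAll P Q)
    (hT1 : ∀ K : Subgroup T, K ≠ ⊤ → ∃ f : Fin 5 → T, ∀ s s', s ≠ s' → (f s)⁻¹ * f s' ∉ K)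
    (hT2 : commutator T = ⊤) (S : Finset Gt)
    (hS : ∀ γ φ, N.IsAut (P γ) (Q γ) φ → ∀ g ∈ S, φ g ∈ S) (m : ℕ)
    (hm : S.card < 5 ^ m) (g : Gt) (hg : g ∈ S) :
    ∃ A : Finset (Fin r), A.card < 2 * m ∧ ∀ j ∉ A, N.Fixed P Q (fac T j) g := by
  classical
  choose φ hφ using h.all
  let St : Subgroup (Fin r → T) :=
    { carrier := {γ | ∃ ψ, N.IsAut (P γ) (Q γ) ψ ∧ ψ g = g}
      one_mem' := ⟨1, by rw [map_one, map_one]; exact ⟨Net.IsAut.one, rfl⟩⟩
      mul_mem' := by
        rintro a b ⟨φ, hφ, hφg⟩ ⟨ψ, hψ, hψg⟩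
        refine ⟨φ * ψ, ?_, ?_⟩
        · rw [map_mul, map_mul]
          exact hφ.mul hψ
        · rw [Equiv.Perm.mul_apply, hψg, hφg]
      inv_mem' := by
        rintro a ⟨φ, hφ, hφg⟩
        refine ⟨φ⁻¹, ?_, ?_⟩
        · rw [map_inv, map_inv]
          exact hφ.inv
        · rw [Equiv.Perm.inv_eq_iff_eq]
          exact hφg.symm }
  obtain ⟨A, hA, hA2⟩ := Pool.Agent.H545R2.support_general hT1 hT2 St
    (fun γ => (⟨φ γ g, hS γ (φ γ) (hφ γ) g hg⟩ : {g // g ∈ S})) (by
    intro γ γ' hγ
    refine ⟨(φ γ)⁻¹ * φ γ', ?_, ?_⟩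
    · rw [map_mul, map_mul, map_inv, map_inv]
      exact (hφ γ).inv.mul (hφ γ')
    · rw [Equiv.Perm.mul_apply, Equiv.Perm.inv_eq_iff_eq]
      exact (Subtype.mk.inj hγ).symm) m (by rw [Fintype.card_coe]; exact hm)
  refine ⟨A, hA, ?_⟩
  intro j hj γ hγ
  obtain ⟨a, rfl⟩ := mem_fac.1 hγ
  exact hA2 j hj a

theorem card_moved_sub {N : Net I K O Gt} {P : (Fin r → T) →* Equiv.Perm I}
    {Q : (Fin r → T) →* Equiv.Perm O} (h : N.SymAll P Q)
    (hT1 : ∀ K : Subgroup T, K ≠ ⊤ → ∃ f : Fin 5 → T, ∀ s s', s ≠ s' → (f s)⁻¹ * f s' ∉ K)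
    (hT2 : commutator T = ⊤) (S : Finset Gt)
    (hS : ∀ γ φ, N.IsAut (P γ) (Q γ) φ → ∀ g ∈ S, φ g ∈ S) (g : Gt) (hg : g ∈ S) :
    (N.moved P Q g).card ≤ 2 * Nat.log 5 S.card + 1 := by
  classical
  obtain ⟨A, hA, hA2⟩ := supp_sub h hT1 hT2 S hS (Nat.log 5 S.card + 1)
    (Nat.lt_pow_succ_log_self (by norm_num) _) g hg
  have h1 : N.moved P Q g ⊆ A := by
    intro j hj
    by_contra hcon
    unfold Net.moved at hj
    rw [Finset.mem_filter] at hj
    exact hj.2 (hA2 j hcon)
  have := Finset.card_le_card h1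
  omega

/-- the pairs of factors such that some gate in `S` is moved by both of them -/
noncomputable def covered2 (N : Net I K O Gt) (P : (Fin r → T) →* Equiv.Perm I)
    (Q : (Fin r → T) →* Equiv.Perm O) (S : Finset Gt) : Finset (Finset (Fin r)) := by
  classical
  exact (Finset.powersetCard 2 Finset.univ).filter (fun A => ∃ g ∈ S, A ⊆ N.moved P Q g)

theorem card_covered2 {N : Net I K O Gt} {P : (Fin r → T) →* Equiv.Perm I}
    {Q : (Fin r → T) →* Equiv.Perm O} (h : N.SymAll P Q)
    (hT1 : ∀ K : Subgroup T, K ≠ ⊤ → ∃ f : Fin 5 → T, ∀ s s', s ≠ s' → (f s)⁻¹ * f s' ∉ K)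
    (hT2 : commutator T = ⊤) (S : Finset Gt)
    (hS : ∀ γ φ, N.IsAut (P γ) (Q γ) φ → ∀ g ∈ S, φ g ∈ S) :
    (covered2 N P Q S).card ≤ S.card * (2 * Nat.log 5 S.card + 1).choose 2 := by
  classical
  have h1 : covered2 N P Q S ⊆
      S.biUnion (fun g : Gt => Finset.powersetCard 2 (N.moved P Q g)) := by
    intro A hA
    unfold covered2 at hA
    rw [Finset.mem_filter, Finset.mem_powersetCard] at hA
    obtain ⟨⟨_, hA1⟩, g, hgS, hg⟩ := hA
    rw [Finset.mem_biUnion]
    exact ⟨g, hgS, Finset.mem_powersetCard.2 ⟨hg, hA1⟩⟩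
  calc (covered2 N P Q S).card ≤ _ := Finset.card_le_card h1
    _ ≤ ∑ g ∈ S, (Finset.powersetCard 2 (N.moved P Q g)).card := Finset.card_biUnion_le
    _ ≤ ∑ _g ∈ S, (2 * Nat.log 5 S.card + 1).choose 2 := by
        apply Finset.sum_le_sum
        intro g hg
        rw [Finset.card_powersetCard]
        exact Nat.choose_le_choose 2 (card_moved_sub h hT1 hT2 S hS g hg)
    _ = _ := by
        rw [Finset.sum_const, smul_eq_mul]

theorem not_covered2 {N : Net I K O Gt} {P : (Fin r → T) →* Equiv.Perm I}
    {Q : (Fin r → T) →* Equiv.Perm O} {S : Finset Gt} {j0 j1 : Fin r} (hj : j0 ≠ j1)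
    (h : ({j0, j1} : Finset (Fin r)) ∉ covered2 N P Q S) (g : Gt) (hg : g ∈ S) :
    N.Fixed P Q (fac T j0) g ∨ N.Fixed P Q (fac T j1) g := by
  classical
  by_contra hcon
  push Not at hcon
  apply h
  unfold covered2
  rw [Finset.mem_filter, Finset.mem_powersetCard]
  refine ⟨⟨Finset.subset_univ _, Finset.card_pair hj⟩, g, hg, ?_⟩
  intro j hjm
  rw [Finset.mem_insert, Finset.mem_singleton] at hjm
  unfold Net.moved
  rw [Finset.mem_filter]
  rcases hjm with rfl | rfl
  · exact ⟨Finset.mem_univ _, hcon.1⟩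
  · exact ⟨Finset.mem_univ _, hcon.2⟩

end supp

end Pool.Agent.H587R4.OL
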