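import Pool.Agent.H587R4.OL.Core

set_option autoImplicit false
set_option linter.unusedSectionVars false

/-! Locally symmetric online networks for the Boolean matrix-vector problem (OMv). -/

namespace Pool.Agent.H587R4.OL

open Finset Pool.Agent.H526R2.LS

section defs

variable {V K Gt : Type*} {n r : ℕ}

/-- the permutation of the entries of `n` vectors induced by a permutation of the coordinates -/
def vecPerm (n : ℕ) (π : Equiv.Perm V) : Equiv.Perm (Fin n × V) :=
  Equiv.prodCongr (Equiv.refl (Fin n)) π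

/-- the permutation of the inputs (entries of the matrix, entries of the vectors) induced by a
permutation of the indices, applied to the rows and columns of the matrix and to the coordinates of
the vectors -/
def inPerm (n : ℕ) (π : Equiv.Perm V) : Equiv.Perm ((V × V) ⊕ (Fin n × V)) :=
  Equiv.sumCongr (Equiv.prodCongr π π) (vecPerm n π)

/-- The input of the network: the entry `(u, w)` of the matrix `M` is the variable
`Sum.inl (u, w)`, the entry `w` of the `i`-th vector is the variable `Sum.inr (i, w)`; a bit `b` is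
given to the network as `enc b`. -/
def omvInput (enc : Bool → K) (M : V → V → Bool) (v : Fin n → V → Bool) :
    (V × V) ⊕ (Fin n × V) → K :=
  Sum.elim (fun e => enc (M e.1 e.2)) (fun e => enc (v e.1 e.2))

/-- All `n` Boolean products `M v_i` are computed correctly: the output gate `(i, u)`, decoded by
`dec`, is true iff `M u w` and `v i w` are true for some `w`. -/
def Answers [Fintype Gt] (N : Net ((V × V) ⊕ (Fin n × V)) K (Fin n × V) Gt) (enc : Bool → K)
    (dec : K → Bool) (M : V → V → Bool) (v : Fin n → V → Bool) : Prop :=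
  ∀ i u, (dec (N.val (omvInput enc M v) (N.out (i, u))) = true) ↔
    ∃ w, M u w = true ∧ v i w = true

/-- the gate `g` depends on the `i`-th vector: a directed path leads to `g` from a gate which reads
an entry of this vector -/
def DependsOn (N : Net ((V × V) ⊕ (Fin n × V)) K (Fin n × V) Gt) (i : Fin n) (g : Gt) : Prop :=
  Dep N (fun x => ∃ w, x = Sum.inr (i, w)) g

/-- the network is online: the answer to the `i`-th vector does not depend on later vectors -/
def Online (N : Net ((V × V) ⊕ (Fin n × V)) K (Fin n × V) Gt) : Prop :=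
  ∀ i j : Fin n, i < j → ∀ u, ¬ DependsOn N j (N.out (i, u))

/-- the network is symmetric on the blocks `ι (j, ·)`: every even permutation of one block extends
to an automorphism -/
def SymOn (N : Net ((V × V) ⊕ (Fin n × V)) K (Fin n × V) Gt) (ι : Fin r × Fin 5 ↪ V) : Prop :=
  ∀ (j : Fin r) (σ : Equiv.Perm (Fin 5)), σ ∈ alternatingGroup (Fin 5) →
    ∃ φ, N.IsAut (inPerm n (blockPerm ι j σ)) (vecPerm n (blockPerm ι j σ)) φ

/-- the gates of stage `i`: they depend on the `i`-th vector and on no later vector -/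
noncomputable def stage [Fintype Gt] (N : Net ((V × V) ⊕ (Fin n × V)) K (Fin n × V) Gt)
    (i : Fin n) : Finset Gt := by
  classical
  exact Finset.univ.filter (fun g => DependsOn N i g ∧ ∀ j, i < j → ¬ DependsOn N j g)

theorem mem_stage [Fintype Gt] {N : Net ((V × V) ⊕ (Fin n × V)) K (Fin n × V) Gt} {i : Fin n}
    {g : Gt} : g ∈ stage N i ↔ DependsOn N i g ∧ ∀ j, i < j → ¬ DependsOn N j g := by
  classical
  unfold stage
  rw [Finset.mem_filter]
  exact and_iff_right (Finset.mem_univ _)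

end defs

section lower

variable {V K : Type*} {n r : ℕ}

/-- the action on the entries of the vectors -/
def vecHom (V : Type*) (n : ℕ) : Equiv.Perm V →* Equiv.Perm (Fin n × V) where
  toFun := vecPerm n
  map_one' := by ext e <;> rfl
  map_mul' p q := by ext e <;> rfl

/-- the action on the inputs -/
def inHom (V : Type*) (n : ℕ) : Equiv.Perm V →* Equiv.Perm ((V × V) ⊕ (Fin n × V)) where
  toFun := inPerm n
  map_one' := by
    apply Equiv.ext
    rintro (e | e) <;> rfl
  map_mul' p q := by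
    apply Equiv.ext
    rintro (e | e) <;> rfl

theorem inHom_inl (π : Equiv.Perm V) (x y : V) :
    inHom V n π (Sum.inl (x, y)) = Sum.inl (π x, π y) := rfl

theorem inHom_inr (π : Equiv.Perm V) (i : Fin n) (y : V) :
    inHom V n π (Sum.inr (i, y)) = Sum.inr (i, π y) := rfl

variable (ι : Fin r × Fin 5 ↪ V) (j0 j1 : Fin r) (lb : Fin 5 ≃ ZMod 5)

/-- the matching between the blocks `j0` and `j1` -/
def Mt (c : ZMod 5) (x y : V) : Prop := ∃ b b', x = ι (j0, b) ∧ y = ι (j1, b') ∧ lb b' = lb b + c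

/-- the unit vector -/
def Vt (d : ZMod 5) (y : V) : Prop := ∃ b, y = ι (j1, b) ∧ lb b = d

open Classical in
noncomputable def mat (c : ZMod 5) : V → V → Bool := fun x y => decide (Mt ι j0 j1 lb c x y)

open Classical in
noncomputable def vec (i0 : Fin n) (d : ZMod 5) : Fin n → V → Bool :=
  fun i y => decide (i = i0 ∧ Vt ι j1 lb d y)

variable {ι j0 j1 lb}

theorem mat_true {c : ZMod 5} {x y : V} : mat ι j0 j1 lb c x y = true ↔ Mt ι j0 j1 lb c x y := by
  classical
  unfold mat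
  exact decide_eq_true_iff

theorem vec_true {i0 i : Fin n} {d : ZMod 5} {y : V} :
    vec ι j1 lb i0 d i y = true ↔ i = i0 ∧ Vt ι j1 lb d y := by
  classical
  unfold vec
  exact decide_eq_true_iff

theorem mt_act (γ : Fin r → alternatingGroup (Fin 5)) {c c' a0 a1 : ZMod 5}
    (h0 : ∀ b, lb ((γ j0 : Equiv.Perm (Fin 5)) b) = lb b + a0)
    (h1 : ∀ b, lb ((γ j1 : Equiv.Perm (Fin 5)) b) = lb b + a1) (hc : c' = c + a1 - a0) (x y : V) :
    Mt ι j0 j1 lb c' (actV ι γ x) (actV ι γ y) ↔ Mt ι j0 j1 lb c x y := by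
  constructor
  · rintro ⟨b, b', e1, e2, e3⟩
    refine ⟨(γ j0 : Equiv.Perm (Fin 5)).symm b, (γ j1 : Equiv.Perm (Fin 5)).symm b', ?_, ?_, ?_⟩
    · apply (actV ι γ).injective
      rw [actV_mk, e1, Equiv.apply_symm_apply]
    · apply (actV ι γ).injective
      rw [actV_mk, e2, Equiv.apply_symm_apply]
    · have k0 := h0 ((γ j0 : Equiv.Perm (Fin 5)).symm b)
      have k1 := h1 ((γ j1 : Equiv.Perm (Fin 5)).symm b')
      rw [Equiv.apply_symm_apply] at k0 k1
      linear_combination e3 - k1 + k0 + hc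
  · rintro ⟨b, b', rfl, rfl, e3⟩
    refine ⟨(γ j0 : Equiv.Perm (Fin 5)) b, (γ j1 : Equiv.Perm (Fin 5)) b', actV_mk _ _ _ _,
      actV_mk _ _ _ _, ?_⟩
    rw [h0, h1, e3, hc]
    ring

theorem vt_act (γ : Fin r → alternatingGroup (Fin 5)) {d d' a1 : ZMod 5}
    (h1 : ∀ b, lb ((γ j1 : Equiv.Perm (Fin 5)) b) = lb b + a1) (hd : d' = d + a1) (y : V) :
    Vt ι j1 lb d' (actV ι γ y) ↔ Vt ι j1 lb d y := by
  constructor
  · rintro ⟨b, e1, e2⟩
    refine ⟨(γ j1 : Equiv.Perm (Fin 5)).symm b, ?_, ?_⟩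
    · apply (actV ι γ).injective
      rw [actV_mk, e1, Equiv.apply_symm_apply]
    · have k1 := h1 ((γ j1 : Equiv.Perm (Fin 5)).symm b)
      rw [Equiv.apply_symm_apply] at k1
      linear_combination e2 - k1 + hd
  · rintro ⟨b, rfl, e2⟩
    refine ⟨(γ j1 : Equiv.Perm (Fin 5)) b, actV_mk _ _ _ _, ?_⟩
    rw [h1, e2, hd]

/-- rotation of the block `j` -/
def rel (lb : Fin 5 ≃ ZMod 5) (j : Fin r) (a : ZMod 5) : Fin r → alternatingGroup (Fin 5) :=
  Pi.mulSingle j ⟨rot lb a, rot_mem lb a⟩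

theorem rel_mem (j : Fin r) (a : ZMod 5) : rel lb j a ∈ fac (alternatingGroup (Fin 5)) j :=
  ⟨_, rfl⟩

theorem rel_same (j : Fin r) (a : ZMod 5) (b : Fin 5) :
    lb (((rel lb j a) j : Equiv.Perm (Fin 5)) b) = lb b + a := by
  unfold rel
  rw [Pi.mulSingle_eq_same]
  exact rot_apply lb a b

theorem rel_ne {j j' : Fin r} (h : j' ≠ j) (a : ZMod 5) (b : Fin 5) :
    lb (((rel lb j a) j' : Equiv.Perm (Fin 5)) b) = lb b + 0 := by
  unfold rel
  rw [Pi.mulSingle_eq_of_ne h, add_zero]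
  rfl

theorem moved (j : Fin r) (b : Fin 5) : actV ι (rel lb j 1) (ι (j, b)) ≠ ι (j, b) := by
  rw [actV_mk]
  intro h
  have h2 := ι.injective h
  simp only [Prod.mk.injEq, true_and] at h2
  have h3 := rel_same (lb := lb) j 1 b
  rw [h2] at h3
  have h4 : (0 : ZMod 5) = 1 := by
    have : lb b + 0 = lb b + 1 := by rw [add_zero]; exact h3
    exact add_left_cancel this
  exact absurd h4 (by decide)

/-- the configurations -/
noncomputable def cfg (ι : Fin r × Fin 5 ↪ V) (j0 j1 : Fin r) (lb : Fin 5 ≃ ZMod 5)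
    (enc : Bool → K) (i0 : Fin n) (c d : ZMod 5) : (V × V) ⊕ (Fin n × V) → K :=
  omvInput enc (mat ι j0 j1 lb c) (vec ι j1 lb i0 d)

theorem cfg_act (enc : Bool → K) (i0 : Fin n) (γ : Fin r → alternatingGroup (Fin 5))
    {c c' d d' a0 a1 : ZMod 5}
    (h0 : ∀ b, lb ((γ j0 : Equiv.Perm (Fin 5)) b) = lb b + a0)
    (h1 : ∀ b, lb ((γ j1 : Equiv.Perm (Fin 5)) b) = lb b + a1) (hc : c' = c + a1 - a0)
    (hd : d' = d + a1) (z : (V × V) ⊕ (Fin n × V)) :
    cfg ι j0 j1 lb enc i0 c' d' ((inHom V n).comp (actV ι) γ z) =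
      cfg ι j0 j1 lb enc i0 c d z := by
  rcases z with ⟨x, y⟩ | ⟨i, y⟩
  · show enc (mat ι j0 j1 lb c' (actV ι γ x) (actV ι γ y)) = enc (mat ι j0 j1 lb c x y)
    unfold mat
    exact congrArg enc (decide_eq_decide.2 (mt_act γ h0 h1 hc x y))
  · show enc (vec ι j1 lb i0 d' i (actV ι γ y)) = enc (vec ι j1 lb i0 d i y)
    unfold vec
    exact congrArg enc (decide_eq_decide.2 (and_congr_right fun _ => vt_act γ h1 hd y))

variable {Gt : Type*} [Fintype Gt]

theorem dep_inv (N : Net ((V × V) ⊕ (Fin n × V)) K (Fin n × V) Gt)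
    {γ : Fin r → alternatingGroup (Fin 5)} {φ : Equiv.Perm Gt}
    (hφ : N.IsAut ((inHom V n).comp (actV ι) γ) ((vecHom V n).comp (actV ι) γ) φ) (i : Fin n)
    (g : Gt) : DependsOn N i (φ g) ↔ DependsOn N i g := by
  apply Dep.aut_iff hφ
  intro z
  constructor
  · rintro ⟨w, hw⟩
    rcases z with ⟨x, y⟩ | ⟨i', y⟩
    · exact absurd hw (by
        show (Sum.inl _ : (V × V) ⊕ (Fin n × V)) ≠ _
        simp)
    · have h1 : (Sum.inr (i', actV ι γ y) : (V × V) ⊕ (Fin n × V)) = Sum.inr (i, w) := hw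
      have h2 := Sum.inr_injective h1
      simp only [Prod.mk.injEq] at h2
      exact ⟨y, by rw [h2.1]⟩
  · rintro ⟨w, rfl⟩
    exact ⟨actV ι γ w, rfl⟩

theorem stage_inv (N : Net ((V × V) ⊕ (Fin n × V)) K (Fin n × V) Gt) (i : Fin n)
    (γ : Fin r → alternatingGroup (Fin 5)) (φ : Equiv.Perm Gt)
    (hφ : N.IsAut ((inHom V n).comp (actV ι) γ) ((vecHom V n).comp (actV ι) γ) φ) :
    ∀ g ∈ stage N i, φ g ∈ stage N i := by
  intro g hg
  rw [mem_stage] at hg ⊢
  refine ⟨(dep_inv N hφ i g).2 hg.1, ?_⟩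
  intro j hj hd
  exact hg.2 j hj ((dep_inv N hφ j g).1 hd)

theorem errs {N : Net ((V × V) ⊕ (Fin n × V)) K (Fin n × V) Gt}
    (hS : N.SymAll ((inHom V n).comp (actV ι)) ((vecHom V n).comp (actV ι)))
    (honl : Online N) (enc : Bool → K) (dec : K → Bool) (i0 : Fin n) (hj : j0 ≠ j1)
    (lb : Fin 5 ≃ ZMod 5)
    (hcov : ({j0, j1} : Finset (Fin r)) ∉ covered2 N ((inHom V n).comp (actV ι))
      ((vecHom V n).comp (actV ι)) (stage N i0)) :
    ¬ Answers N enc dec (mat ι j0 j1 lb 0) (vec ι j1 lb i0 0) ∨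
    ¬ Answers N enc dec (mat ι j0 j1 lb 0) (vec ι j1 lb i0 1) := by
  have hlate : ∀ g, Dep N (fun x => ∃ j w, i0 < j ∧ x = Sum.inr (j, w)) g →
      ∃ j, i0 < j ∧ DependsOn N j g := by
    rintro g ⟨h, i, h1, ⟨j, w, h2, h3⟩, h4⟩
    exact ⟨j, h2, h, i, h1, ⟨w, h3⟩, h4⟩
  have hlate' : ∀ g j, i0 < j → DependsOn N j g →
      Dep N (fun x => ∃ j w, i0 < j ∧ x = Sum.inr (j, w)) g := by
    rintro g j hj ⟨h, i, h1, ⟨w, h3⟩, h4⟩
    exact ⟨h, i, h1, ⟨j, w, hj, h3⟩, h4⟩
  have hmain := core2 N ((inHom V n).comp (actV ι)) ((vecHom V n).comp (actV ι))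
    (fac (alternatingGroup (Fin 5)) j0) (fac (alternatingGroup (Fin 5)) j1)
    (fun x => ∃ w, x = Sum.inr (i0, w)) (fun x => ∃ j w, i0 < j ∧ x = Sum.inr (j, w))
    (by
      intro γ z
      constructor
      · rintro ⟨w, hw⟩
        rcases z with ⟨x, y⟩ | ⟨i', y⟩
        · exact absurd hw (by
            show (Sum.inl _ : (V × V) ⊕ (Fin n × V)) ≠ _
            simp)
        · have h1 : (Sum.inr (i', actV ι γ y) : (V × V) ⊕ (Fin n × V)) = Sum.inr (i0, w) := hw
          have h2 := Sum.inr_injective h1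
          simp only [Prod.mk.injEq] at h2
          exact ⟨y, by rw [h2.1]⟩
      · rintro ⟨w, rfl⟩
        exact ⟨actV ι γ w, rfl⟩)
    (cfg ι j0 j1 lb enc i0)
    (by
      intro c c' d
      refine ⟨rel lb j0 (c - c'), rel_mem _ _, ?_⟩
      exact cfg_act enc i0 _ (rel_same j0 _) (rel_ne hj.symm _) (by ring) (by ring))
    (by
      intro c d d'
      refine ⟨rel lb j1 (d' - d), rel_mem _ _, c + (d' - d), ?_⟩
      exact cfg_act enc i0 _ (rel_ne hj _) (rel_same j1 _) (by ring) (by ring))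
    (by
      intro c c' d
      refine ⟨rel lb j1 (c' - c), rel_mem _ _, d + (c' - c), ?_⟩
      exact cfg_act enc i0 _ (rel_ne hj _) (rel_same j1 _) (by ring) (by ring))
    (by
      intro c d d' z hz
      rcases z with ⟨x, y⟩ | ⟨i, y⟩
      · rfl
      · show enc (vec ι j1 lb i0 d i y) = enc (vec ι j1 lb i0 d' i y)
        have hi : i ≠ i0 := by
          rintro rfl
          exact hz ⟨y, rfl⟩
        unfold vec
        simp only [hi, false_and])
    (by
      intro z hz c d c' d'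
      have hz1 := hz _ (rel_mem (lb := lb) j1 1)
      rcases z with ⟨x, y⟩ | ⟨i, y⟩
      · have h1 : (Sum.inl (actV ι (rel lb j1 1) x, actV ι (rel lb j1 1) y) :
            (V × V) ⊕ (Fin n × V)) = Sum.inl (x, y) := hz1
        have h2 := Sum.inl_injective h1
        simp only [Prod.mk.injEq] at h2
        have h3 : ∀ c, ¬ Mt ι j0 j1 lb c x y := by
          rintro c ⟨b, b', _, e2, _⟩
          rw [e2] at h2
          exact moved j1 b' h2.2
        show enc (mat ι j0 j1 lb c x y) = enc (mat ι j0 j1 lb c' x y)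
        unfold mat
        simp only [h3]
      · have h1 : (Sum.inr (i, actV ι (rel lb j1 1) y) :
            (V × V) ⊕ (Fin n × V)) = Sum.inr (i, y) := hz1
        have h2 := Sum.inr_injective h1
        simp only [Prod.mk.injEq, true_and] at h2
        have h3 : ∀ d, ¬ Vt ι j1 lb d y := by
          rintro d ⟨b, e1, _⟩
          rw [e1] at h2
          exact moved j1 b h2
        show enc (vec ι j1 lb i0 d i y) = enc (vec ι j1 lb i0 d' i y)
        unfold vec
        simp only [h3, and_false])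
    (by
      intro g hd hl
      apply not_covered2 hj hcov g
      rw [mem_stage]
      exact ⟨hd, fun j hj hdj => hl (hlate' g j hj hdj)⟩)
  let u : V := ι (j0, lb.symm 0)
  have hfix : N.Fixed ((inHom V n).comp (actV ι)) ((vecHom V n).comp (actV ι))
      (fac (alternatingGroup (Fin 5)) j1) (N.out (i0, u)) := by
    apply fixed_out hS
    rintro γ ⟨a, rfl⟩
    show ((i0, actV ι (Pi.mulSingle j1 a) u) : Fin n × V) = (i0, u)
    have h2 : actV ι (Pi.mulSingle j1 a) u = u := by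
      show actV ι (Pi.mulSingle j1 a) (ι (j0, lb.symm 0)) = ι (j0, lb.symm 0)
      rw [actV_mk, Pi.mulSingle_eq_of_ne hj]
      rfl
    rw [h2]
  have hnl : ¬ Dep N (fun x => ∃ j w, i0 < j ∧ x = Sum.inr (j, w)) (N.out (i0, u)) := by
    intro hd
    obtain ⟨j, h1, h2⟩ := hlate _ hd
    exact honl i0 j h1 u h2
  have hval := hmain _ hnl hfix 0 0 0 1
  by_contra hcon
  push Not at hcon
  obtain ⟨h3, h4⟩ := hcon
  have h5 := h3 i0 u
  have h6 := h4 i0 u
  have h7 : dec (N.val (omvInput enc (mat ι j0 j1 lb 0) (vec ι j1 lb i0 0)) (N.out (i0, u))) =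
      dec (N.val (omvInput enc (mat ι j0 j1 lb 0) (vec ι j1 lb i0 1)) (N.out (i0, u))) :=
    congrArg dec hval
  rw [h7, h6] at h5
  have h8 : ∃ w, mat ι j0 j1 lb 0 u w = true ∧ vec ι j1 lb i0 0 i0 w = true := by
    refine ⟨ι (j1, lb.symm 0), ?_, ?_⟩
    · rw [mat_true]
      exact ⟨_, _, rfl, rfl, by rw [Equiv.apply_symm_apply, add_zero]⟩
    · rw [vec_true]
      exact ⟨rfl, _, rfl, by rw [Equiv.apply_symm_apply]⟩
  obtain ⟨w, h9, h10⟩ := h5.2 h8
  rw [mat_true] at h9
  rw [vec_true] at h10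
  obtain ⟨b, b', e1, e2, e3⟩ := h9
  obtain ⟨_, b'', e4, e5⟩ := h10
  have e6 := ι.injective e1
  have e7 := ι.injective (e2.symm.trans e4)
  simp only [Prod.mk.injEq, true_and] at e6 e7
  rw [← e6, e7, e5, Equiv.apply_symm_apply] at e3
  exact absurd e3 (by decide)

open Classical in
theorem omv_lower [Fintype V] (enc : Bool → K) (dec : K → Bool) (ι : Fin r × Fin 5 ↪ V)
    {Ω : Type*} [Fintype Ω] (p : Ω → ℝ) (hp : ∀ ω, 0 ≤ p ω) (hp1 : ∑ ω, p ω = 1) (Gt : Ω → Type*)
    [∀ ω, Fintype (Gt ω)] (N : ∀ ω, Net ((V × V) ⊕ (Fin n × V)) K (Fin n × V) (Gt ω))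
    (hsym : ∀ ω, SymOn (N ω) ι) (honl : ∀ ω, Online (N ω)) (ε : ℝ) (hε : 2 * ε ≤ 1)
    (herr : ∀ (M : V → V → Bool) (v : Fin n → V → Bool),
      ∑ ω with ¬ Answers (N ω) enc dec M v, p ω ≤ ε) :
    (1 - 2 * ε) * (n * ((r - 1 : ℕ) : ℝ) ^ 2) ≤
      ∑ ω, p ω * ∑ i : Fin n, (((stage (N ω) i).card : ℝ) *
        ((2 * Nat.log 5 (stage (N ω) i).card + 1 : ℕ) : ℝ) ^ 2) := by
  have hB5 : 5 ≤ Fintype.card (Fin 5) := by rw [Fintype.card_fin]
  have hS : ∀ ω, (N ω).SymAll ((inHom V n).comp (actV ι)) ((vecHom V n).comp (actV ι)) := by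
    intro ω j a
    obtain ⟨φ, hφ⟩ := hsym ω j a a.2
    refine ⟨φ, ?_⟩
    rw [MonoidHom.comp_apply, MonoidHom.comp_apply, actV_single]
    exact hφ
  have hlbB : Nonempty (Fin 5 ≃ ZMod 5) := ⟨Equiv.refl _⟩
  obtain ⟨lb⟩ := hlbB
  have hi : ∀ i0 : Fin n, (1 - 2 * ε) * ((r - 1 : ℕ) : ℝ) ^ 2 ≤
      ∑ ω, p ω * (((stage (N ω) i0).card : ℝ) *
        ((2 * Nat.log 5 (stage (N ω) i0).card + 1 : ℕ) : ℝ) ^ 2) := by
    intro i0
    have hmain := random_cover (X := (V → V → Bool) × (Fin n → V → Bool)) p hp hp1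
      (fun ω x => ¬ Answers (N ω) enc dec x.1 x.2)
      ε (fun x => by convert herr x.1 x.2) r 2
      (fun ω => covered2 (N ω) ((inHom V n).comp (actV ι)) ((vecHom V n).comp (actV ι))
        (stage (N ω) i0)) (by
        intro A hA
        rw [Finset.mem_powersetCard] at hA
        obtain ⟨j0, j1, hj, rfl⟩ := Finset.card_eq_two.1 hA.2
        refine ⟨(mat ι j0 j1 lb 0, vec ι j1 lb i0 0), (mat ι j0 j1 lb 0, vec ι j1 lb i0 1), ?_⟩
        intro ω hω
        exact errs (hS ω) (honl ω) enc dec i0 hj lb hω)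
    have hcard : ∀ ω, (covered2 (N ω) ((inHom V n).comp (actV ι)) ((vecHom V n).comp (actV ι))
        (stage (N ω) i0)).card ≤ (stage (N ω) i0).card *
          (2 * Nat.log 5 (stage (N ω) i0).card + 1).choose 2 := fun ω =>
      card_covered2 (hS ω) (alt_index hB5) (alt_perfect hB5) _ (stage_inv (N ω) i0)
    have h2 := choose_to_pow p hp (fun ω => (stage (N ω) i0).card)
      (fun ω => 2 * Nat.log 5 (stage (N ω) i0).card + 1) 2 r (1 - 2 * ε) (by linarith) (by
        refine hmain.trans (Finset.sum_le_sum fun ω _ => ?_)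
        apply mul_le_mul_of_nonneg_left _ (hp ω)
        exact_mod_cast hcard ω)
    have e : r + 1 - 2 = r - 1 := by omega
    rw [e] at h2
    exact h2
  calc (1 - 2 * ε) * (n * ((r - 1 : ℕ) : ℝ) ^ 2) =
      ∑ _i : Fin n, (1 - 2 * ε) * ((r - 1 : ℕ) : ℝ) ^ 2 := by
        rw [Finset.sum_const, Finset.card_univ, Fintype.card_fin, nsmul_eq_mul]
        ring
    _ ≤ ∑ i : Fin n, ∑ ω, p ω * (((stage (N ω) i).card : ℝ) *
        ((2 * Nat.log 5 (stage (N ω) i).card + 1 : ℕ) : ℝ) ^ 2) :=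
        Finset.sum_le_sum fun i _ => hi i
    _ = _ := by
        rw [Finset.sum_comm]
        apply Finset.sum_congr rfl
        intro ω _
        rw [Finset.mul_sum]

end lower

end Pool.Agent.H587R4.OL
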