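import Pool.Agent.H587R4.OL.OMv

set_option autoImplicit false
set_option linter.unusedSectionVars false

/-! Locally symmetric online networks for the matrix-vector problem over a semiring. -/

namespace Pool.Agent.H587R4.OL

open Finset Pool.Agent.H526R2.LS

section defs

variable {V K R Gt : Type*} {n r : ℕ}

/-- The input of the network: the entry `(u, w)` of the matrix `M` is the variable
`Sum.inl (u, w)`, the entry `w` of the `i`-th vector is the variable `Sum.inr (i, w)`; an element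
`x` is given to the network as `enc x`. -/
def vecInput (enc : R → K) (M : Matrix V V R) (v : Fin n → V → R) :
    (V × V) ⊕ (Fin n × V) → K :=
  Sum.elim (fun e => enc (M e.1 e.2)) (fun e => enc (v e.1 e.2))

/-- All `n` products `M v_i` are computed correctly: the value of the output gate `(i, u)`, decoded
by `dec`, is the entry `u` of `M v_i`. -/
def AnswersOver [Fintype V] [NonUnitalNonAssocSemiring R] [Fintype Gt]
    (N : Net ((V × V) ⊕ (Fin n × V)) K (Fin n × V) Gt) (enc : R → K) (dec : K → R)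
    (M : Matrix V V R) (v : Fin n → V → R) : Prop :=
  ∀ i u, dec (N.val (vecInput enc M v) (N.out (i, u))) = M.mulVec (v i) u

end defs

section lower

variable {V K : Type*} {n r : ℕ} {ι : Fin r × Fin 5 ↪ V} {j0 j1 : Fin r} {Gt : Type*} [Fintype Gt]

theorem same_val {N : Net ((V × V) ⊕ (Fin n × V)) K (Fin n × V) Gt}
    (hS : N.SymAll ((inHom V n).comp (actV ι)) ((vecHom V n).comp (actV ι)))
    (honl : Online N) (enc : Bool → K) (i0 : Fin n) (hj : j0 ≠ j1)
    (lb : Fin 5 ≃ ZMod 5)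
    (hcov : ({j0, j1} : Finset (Fin r)) ∉ covered2 N ((inHom V n).comp (actV ι))
      ((vecHom V n).comp (actV ι)) (stage N i0)) :
    N.val (cfg ι j0 j1 lb enc i0 0 0) (N.out (i0, ι (j0, lb.symm 0))) =
      N.val (cfg ι j0 j1 lb enc i0 0 1) (N.out (i0, ι (j0, lb.symm 0))) := by
  have hlate : ∀ g, Dep N (fun x => ∃ j w, i0 < j ∧ x = Sum.inr (j, w)) g →
      ∃ j, i0 < j ∧ DependsOn N j g := by
    rintro g ⟨h, i, h1, ⟨j, w, h2, h3⟩, h4⟩
    exact ⟨j, h2, h, i, h1, ⟨w, h3⟩, h4⟩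
  have hlate' : ∀ g j, i0 < j → DependsOn N j g →
      Dep N (fun x => ∃ j w, i0 < j ∧ x = Sum.inr (j, w)) g := by
    rintro g j hj ⟨h, i, h1, ⟨w, h3⟩, h4⟩
    exact ⟨h, i, h1, ⟨j, w, hj, h3⟩, h4⟩
  have hmain := core2 N ((inHom V n).comp (actV ι)) ((vecHom V n).comp (actV ι))
    (fac (alternatingGroup (Fin 5)) j0) (fac (alternatingGroup (Fin 5)) j1)
    (fun x => ∃ w, x = Sum.inr (i0, w)) (fun x => ∃ j w, i0 < j ∧ x = Sum.inr (j, w))
    (by
      intro γ z
      constructor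
      · rintro ⟨w, hw⟩
        rcases z with ⟨x, y⟩ | ⟨i', y⟩
        · exact absurd hw (by
            show (Sum.inl _ : (V × V) ⊕ (Fin n × V)) ≠ _
            simp)
        · have h1 : (Sum.inr (i', actV ι γ y) : (V × V) ⊕ (Fin n × V)) = Sum.inr (i0, w) := hw
          have h2 := Sum.inr_injective h1
          simp only [Prod.mk.injEq] at h2
          exact ⟨y, by rw [h2.1]⟩
      · rintro ⟨w, rfl⟩
        exact ⟨actV ι γ w, rfl⟩)
    (cfg ι j0 j1 lb enc i0)
    (by
      intro c c' d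
      refine ⟨rel lb j0 (c - c'), rel_mem _ _, ?_⟩
      exact cfg_act enc i0 _ (rel_same j0 _) (rel_ne hj.symm _) (by ring) (by ring))
    (by
      intro c d d'
      refine ⟨rel lb j1 (d' - d), rel_mem _ _, c + (d' - d), ?_⟩
      exact cfg_act enc i0 _ (rel_ne hj _) (rel_same j1 _) (by ring) (by ring))
    (by
      intro c c' d
      refine ⟨rel lb j1 (c' - c), rel_mem _ _, d + (c' - c), ?_⟩
      exact cfg_act enc i0 _ (rel_ne hj _) (rel_same j1 _) (by ring) (by ring))
    (by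
      intro c d d' z hz
      rcases z with ⟨x, y⟩ | ⟨i, y⟩
      · rfl
      · show enc (vec ι j1 lb i0 d i y) = enc (vec ι j1 lb i0 d' i y)
        have hi : i ≠ i0 := by
          rintro rfl
          exact hz ⟨y, rfl⟩
        unfold vec
        simp only [hi, false_and])
    (by
      intro z hz c d c' d'
      have hz1 := hz _ (rel_mem (lb := lb) j1 1)
      rcases z with ⟨x, y⟩ | ⟨i, y⟩
      · have h1 : (Sum.inl (actV ι (rel lb j1 1) x, actV ι (rel lb j1 1) y) :
            (V × V) ⊕ (Fin n × V)) = Sum.inl (x, y) := hz1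
        have h2 := Sum.inl_injective h1
        simp only [Prod.mk.injEq] at h2
        have h3 : ∀ c, ¬ Mt ι j0 j1 lb c x y := by
          rintro c ⟨b, b', _, e2, _⟩
          rw [e2] at h2
          exact moved j1 b' h2.2
        show enc (mat ι j0 j1 lb c x y) = enc (mat ι j0 j1 lb c' x y)
        unfold mat
        simp only [h3]
      · have h1 : (Sum.inr (i, actV ι (rel lb j1 1) y) :
            (V × V) ⊕ (Fin n × V)) = Sum.inr (i, y) := hz1
        have h2 := Sum.inr_injective h1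
        simp only [Prod.mk.injEq, true_and] at h2
        have h3 : ∀ d, ¬ Vt ι j1 lb d y := by
          rintro d ⟨b, e1, _⟩
          rw [e1] at h2
          exact moved j1 b h2
        show enc (vec ι j1 lb i0 d i y) = enc (vec ι j1 lb i0 d' i y)
        unfold vec
        simp only [h3, and_false])
    (by
      intro g hd hl
      apply not_covered2 hj hcov g
      rw [mem_stage]
      exact ⟨hd, fun j hj hdj => hl (hlate' g j hj hdj)⟩)
  let u : V := ι (j0, lb.symm 0)
  have hfix : N.Fixed ((inHom V n).comp (actV ι)) ((vecHom V n).comp (actV ι))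
      (fac (alternatingGroup (Fin 5)) j1) (N.out (i0, u)) := by
    apply fixed_out hS
    rintro γ ⟨a, rfl⟩
    show ((i0, actV ι (Pi.mulSingle j1 a) u) : Fin n × V) = (i0, u)
    have h2 : actV ι (Pi.mulSingle j1 a) u = u := by
      show actV ι (Pi.mulSingle j1 a) (ι (j0, lb.symm 0)) = ι (j0, lb.symm 0)
      rw [actV_mk, Pi.mulSingle_eq_of_ne hj]
      rfl
    rw [h2]
  have hnl : ¬ Dep N (fun x => ∃ j w, i0 < j ∧ x = Sum.inr (j, w)) (N.out (i0, u)) := by
    intro hd
    obtain ⟨j, h1, h2⟩ := hlate _ hd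
    exact honl i0 j h1 u h2
  exact hmain _ hnl hfix 0 0 0 1

theorem mt_unit {lb : Fin 5 ≃ ZMod 5} {w : V} :
    Mt ι j0 j1 lb 0 (ι (j0, lb.symm 0)) w ↔ w = ι (j1, lb.symm 0) := by
  constructor
  · rintro ⟨b, b', e1, rfl, e3⟩
    have e4 := ι.injective e1
    simp only [Prod.mk.injEq, true_and] at e4
    rw [← e4, Equiv.apply_symm_apply, add_zero] at e3
    rw [← e3, Equiv.symm_apply_apply]
  · rintro rfl
    exact ⟨_, _, rfl, rfl, by rw [Equiv.apply_symm_apply, add_zero]⟩

theorem vt_unit {lb : Fin 5 ≃ ZMod 5} {d : ZMod 5} :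
    Vt ι j1 lb d (ι (j1, lb.symm 0)) ↔ d = 0 := by
  constructor
  · rintro ⟨b, e1, e2⟩
    have e4 := ι.injective e1
    simp only [Prod.mk.injEq, true_and] at e4
    rw [← e4, Equiv.apply_symm_apply] at e2
    exact e2.symm
  · rintro rfl
    exact ⟨_, rfl, by rw [Equiv.apply_symm_apply]⟩

variable {R : Type*} [Semiring R]

/-- a bit as an element of the semiring -/
def bit01 (R : Type*) [Semiring R] (b : Bool) : R := if b then 1 else 0

theorem bit01_or (b : Bool) : bit01 R b = 0 ∨ bit01 R b = 1 := by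
  cases b
  · exact Or.inl rfl
  · exact Or.inr rfl

theorem answer_unit [Fintype V] (lb : Fin 5 ≃ ZMod 5) (i0 : Fin n) (d : ZMod 5) :
    Matrix.mulVec (fun x y => bit01 R (mat ι j0 j1 lb 0 x y) : Matrix V V R)
      (fun y => bit01 R (vec ι j1 lb i0 d i0 y)) (ι (j0, lb.symm 0)) =
      if d = 0 then 1 else 0 := by
  classical
  show ∑ w, bit01 R (mat ι j0 j1 lb 0 (ι (j0, lb.symm 0)) w) * bit01 R (vec ι j1 lb i0 d i0 w) = _
  rw [Finset.sum_eq_single (ι (j1, lb.symm 0))]
  · have h1 : mat ι j0 j1 lb 0 (ι (j0, lb.symm 0)) (ι (j1, lb.symm 0)) = true :=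
      mat_true.2 (mt_unit.2 rfl)
    rw [h1]
    by_cases hd : d = 0
    · have h2 : vec ι j1 lb i0 d i0 (ι (j1, lb.symm 0)) = true := vec_true.2 ⟨rfl, vt_unit.2 hd⟩
      rw [h2, if_pos hd]
      show (1 : R) * 1 = 1
      rw [mul_one]
    · have h2 : vec ι j1 lb i0 d i0 (ι (j1, lb.symm 0)) = false := by
        rw [← Bool.not_eq_true]
        exact fun h => hd (vt_unit.1 (vec_true.1 h).2)
      rw [h2, if_neg hd]
      show (1 : R) * 0 = 0
      rw [mul_zero]
  · intro w _ hw
    have h1 : mat ι j0 j1 lb 0 (ι (j0, lb.symm 0)) w = false := by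
      rw [← Bool.not_eq_true]
      exact fun h => hw (mt_unit.1 (mat_true.1 h))
    rw [h1]
    show (0 : R) * _ = 0
    rw [zero_mul]
  · intro h
    exact absurd (Finset.mem_univ _) h

theorem cfg_eq (enc : R → K) (lb : Fin 5 ≃ ZMod 5) (i0 : Fin n) (d : ZMod 5) :
    vecInput enc (fun x y => bit01 R (mat ι j0 j1 lb 0 x y) : Matrix V V R)
      (fun i y => bit01 R (vec ι j1 lb i0 d i y)) =
      cfg ι j0 j1 lb (fun b => enc (bit01 R b)) i0 0 d := by
  funext z
  rcases z with z | z <;> rfl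

open Classical in
theorem omv_lower_over [Fintype V] [Nontrivial R] (enc : R → K) (dec : K → R)
    (ι : Fin r × Fin 5 ↪ V) {Ω : Type*} [Fintype Ω] (p : Ω → ℝ) (hp : ∀ ω, 0 ≤ p ω)
    (hp1 : ∑ ω, p ω = 1) (Gt : Ω → Type*)
    [∀ ω, Fintype (Gt ω)] (N : ∀ ω, Net ((V × V) ⊕ (Fin n × V)) K (Fin n × V) (Gt ω))
    (hsym : ∀ ω, SymOn (N ω) ι) (honl : ∀ ω, Online (N ω)) (ε : ℝ) (hε : 2 * ε ≤ 1)
    (herr : ∀ (M : Matrix V V R) (v : Fin n → V → R), (∀ u w, M u w = 0 ∨ M u w = 1) →
      (∀ i w, v i w = 0 ∨ v i w = 1) →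
      ∑ ω with ¬ AnswersOver (N ω) enc dec M v, p ω ≤ ε) :
    (1 - 2 * ε) * (n * ((r - 1 : ℕ) : ℝ) ^ 2) ≤
      ∑ ω, p ω * ∑ i : Fin n, (((stage (N ω) i).card : ℝ) *
        ((2 * Nat.log 5 (stage (N ω) i).card + 1 : ℕ) : ℝ) ^ 2) := by
  have hB5 : 5 ≤ Fintype.card (Fin 5) := by rw [Fintype.card_fin]
  have hS : ∀ ω, (N ω).SymAll ((inHom V n).comp (actV ι)) ((vecHom V n).comp (actV ι)) := by
    intro ω j a
    obtain ⟨φ, hφ⟩ := hsym ω j a a.2
    refine ⟨φ, ?_⟩
    rw [MonoidHom.comp_apply, MonoidHom.comp_apply, actV_single]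
    exact hφ
  have hlbB : Nonempty (Fin 5 ≃ ZMod 5) := ⟨Equiv.refl _⟩
  obtain ⟨lb⟩ := hlbB
  have hi : ∀ i0 : Fin n, (1 - 2 * ε) * ((r - 1 : ℕ) : ℝ) ^ 2 ≤
      ∑ ω, p ω * (((stage (N ω) i0).card : ℝ) *
        ((2 * Nat.log 5 (stage (N ω) i0).card + 1 : ℕ) : ℝ) ^ 2) := by
    intro i0
    have hmain := random_cover
      (X := {x : (Matrix V V R) × (Fin n → V → R) // (∀ u w, x.1 u w = 0 ∨ x.1 u w = 1) ∧
        ∀ i w, x.2 i w = 0 ∨ x.2 i w = 1}) p hp hp1
      (fun ω x => ¬ AnswersOver (N ω) enc dec x.1.1 x.1.2)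
      ε (fun x => by convert herr x.1.1 x.1.2 x.2.1 x.2.2) r 2
      (fun ω => covered2 (N ω) ((inHom V n).comp (actV ι)) ((vecHom V n).comp (actV ι))
        (stage (N ω) i0)) (by
        intro A hA
        rw [Finset.mem_powersetCard] at hA
        obtain ⟨j0, j1, hj, rfl⟩ := Finset.card_eq_two.1 hA.2
        refine ⟨⟨(fun x y => bit01 R (mat ι j0 j1 lb 0 x y),
            fun i y => bit01 R (vec ι j1 lb i0 0 i y)), ⟨fun _ _ => bit01_or _, fun _ _ => bit01_or _⟩⟩,
          ⟨(fun x y => bit01 R (mat ι j0 j1 lb 0 x y),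
            fun i y => bit01 R (vec ι j1 lb i0 1 i y)), ⟨fun _ _ => bit01_or _, fun _ _ => bit01_or _⟩⟩, ?_⟩
        intro ω hω
        have hsame := same_val (hS ω) (honl ω) (fun b => enc (bit01 R b)) i0 hj lb hω
        rw [← cfg_eq, ← cfg_eq] at hsame
        by_contra hcon
        push Not at hcon
        obtain ⟨h3, h4⟩ := hcon
        have h5 := h3 i0 (ι (j0, lb.symm 0))
        have h6 := h4 i0 (ι (j0, lb.symm 0))
        have h7 := (congrArg dec hsame).symm.trans h5
        rw [h6] at h7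
        have h8 := answer_unit (R := R) (ι := ι) (j0 := j0) (j1 := j1) lb i0 0
        have h9 := answer_unit (R := R) (ι := ι) (j0 := j0) (j1 := j1) lb i0 1
        rw [if_pos rfl] at h8
        rw [if_neg (by decide)] at h9
        exact one_ne_zero (h8.symm.trans (h7.symm.trans h9)))
    have hcard : ∀ ω, (covered2 (N ω) ((inHom V n).comp (actV ι)) ((vecHom V n).comp (actV ι))
        (stage (N ω) i0)).card ≤ (stage (N ω) i0).card *
          (2 * Nat.log 5 (stage (N ω) i0).card + 1).choose 2 := fun ω =>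
      card_covered2 (hS ω) (alt_index hB5) (alt_perfect hB5) _ (stage_inv (N ω) i0)
    have h2 := choose_to_pow p hp (fun ω => (stage (N ω) i0).card)
      (fun ω => 2 * Nat.log 5 (stage (N ω) i0).card + 1) 2 r (1 - 2 * ε) (by linarith) (by
        refine hmain.trans (Finset.sum_le_sum fun ω _ => ?_)
        apply mul_le_mul_of_nonneg_left _ (hp ω)
        exact_mod_cast hcard ω)
    have e : r + 1 - 2 = r - 1 := by omega
    rw [e] at h2
    exact h2
  calc (1 - 2 * ε) * (n * ((r - 1 : ℕ) : ℝ) ^ 2) =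
      ∑ _i : Fin n, (1 - 2 * ε) * ((r - 1 : ℕ) : ℝ) ^ 2 := by
        rw [Finset.sum_const, Finset.card_univ, Fintype.card_fin, nsmul_eq_mul]
        ring
    _ ≤ ∑ i : Fin n, ∑ ω, p ω * (((stage (N ω) i).card : ℝ) *
        ((2 * Nat.log 5 (stage (N ω) i).card + 1 : ℕ) : ℝ) ^ 2) :=
        Finset.sum_le_sum fun i _ => hi i
    _ = _ := by
        rw [Finset.sum_comm]
        apply Finset.sum_congr rfl
        intro ω _
        rw [Finset.mul_sum]

end lower

end Pool.Agent.H587R4.OL
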